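import Mathlib

/-!
Star isomorphism of two star algebras from an isomorphism of corners and compatible frames.
-/

set_option autoImplicit false
set_option linter.unusedSectionVars false

open scoped ComplexOrder

namespace Pool.Agent.W991.KKS

/-- Compression `x ↦ p x p` followed by an isomorphism of corners. -/
structure CMap {A B : Type*} [Ring A] [StarRing A] [Algebra ℂ A] [Ring B] [StarRing B]
    [Algebra ℂ B] (p : A) (q : B) (t : A → B) : Prop where
  add : ∀ x y, t (x + y) = t x + t y
  smul : ∀ (c : ℂ) x, t (c • x) = c • t x
  stm : ∀ x, t (star x) = star (t x)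
  mul : ∀ x y, t x * t y = t (x * p * y)
  inj : ∀ x, t x = 0 → p * x * p = 0
  surj : ∀ y, q * y * q = y → ∃ x, p * x * p = x ∧ t x = y

variable {A B : Type*} [Ring A] [StarRing A] [Algebra ℂ A] [StarModule ℂ A]
  [Ring B] [StarRing B] [Algebra ℂ B] [StarModule ℂ B]

theorem CMap.zero {p : A} {q : B} {t : A → B} (h : CMap p q t) : t 0 = 0 := by
  have := h.smul 0 0
  simpa using this

theorem CMap.sum {p : A} {q : B} {t : A → B} (h : CMap p q t) {ι : Type*} (s : Finset ι)
    (f : ι → A) : t (∑ i ∈ s, f i) = ∑ i ∈ s, t (f i) := by
  classical
  induction s using Finset.induction_on with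
  | empty => simp [h.zero]
  | insert a s ha ih => rw [Finset.sum_insert ha, Finset.sum_insert ha, h.add, ih]

/-- Frames. -/
structure Fr {ι : Type*} [Fintype ι] [DecidableEq ι] (p : A) (q : B) (t : A → B)
    (u : ι → A) (w : ι → B) : Prop where
  ps : star p = p
  qs : star q = q
  pu : ∀ i, p * u i = u i
  qw : ∀ i, q * w i = w i
  su : ∑ i, star (u i) * u i = 1
  sw : ∑ i, star (w i) * w i = 1
  ou : ∀ i j, i ≠ j → u i * star (u j) = 0
  ow : ∀ i j, i ≠ j → w i * star (w j) = 0
  rw' : ∀ i, w i * star (w i) = t (u i * star (u i))

variable {ι : Type*} [Fintype ι] [DecidableEq ι] {p : A} {q : B} {t : A → B}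
  {u : ι → A} {w : ι → B}

theorem Fr.up (hf : Fr p q t u w) (i : ι) : star (u i) * p = star (u i) := by
  have := congrArg star (hf.pu i)
  rwa [star_mul, hf.ps] at this

theorem Fr.wq (hf : Fr p q t u w) (i : ι) : star (w i) * q = star (w i) := by
  have := congrArg star (hf.qw i)
  rwa [star_mul, hf.qs] at this

theorem Fr.uuu (hf : Fr p q t u w) (i : ι) : u i * star (u i) * u i = u i := by
  have h1 : u i * ∑ j, star (u j) * u j = u i := by rw [hf.su, mul_one]
  rw [Finset.mul_sum, Finset.sum_eq_single i] at h1
  · rw [mul_assoc]; exact h1
  · intro j _ hj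
    rw [← mul_assoc, hf.ou i j hj.symm, zero_mul]
  · simp

theorem Fr.www (hf : Fr p q t u w) (i : ι) : w i * star (w i) * w i = w i := by
  have h1 : w i * ∑ j, star (w j) * w j = w i := by rw [hf.sw, mul_one]
  rw [Finset.mul_sum, Finset.sum_eq_single i] at h1
  · rw [mul_assoc]; exact h1
  · intro j _ hj
    rw [← mul_assoc, hf.ow i j hj.symm, zero_mul]
  · simp

/-- The map `Θ x = ∑ w_i* t(u_i x u_j*) w_j`. -/
def Th (t : A → B) (u : ι → A) (w : ι → B) (x : A) : B :=
  ∑ i, ∑ j, star (w i) * t (u i * x * star (u j)) * w j

theorem wThw (hc : CMap p q t) (hf : Fr p q t u w) (x : A) (i j : ι) :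
    w i * Th t u w x * star (w j) = t (u i * x * star (u j)) := by
  unfold Th
  rw [Finset.mul_sum, Finset.sum_mul, Finset.sum_eq_single i]
  · rw [Finset.mul_sum, Finset.sum_mul, Finset.sum_eq_single j]
    · have h1 : w i * (star (w i) * t (u i * x * star (u j)) * w j) * star (w j) =
        (w i * star (w i)) * t (u i * x * star (u j)) * (w j * star (w j)) := by
        noncomm_ring
      rw [h1, hf.rw', hf.rw', hc.mul, hc.mul]
      congr 1
      calc u i * star (u i) * p * (u i * x * star (u j)) * p * (u j * star (u j))
          = u i * star (u i) * (p * u i) * x * star (u j) * (p * u j) * star (u j) := by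
            noncomm_ring
        _ = (u i * star (u i) * u i) * x * (star (u j) * u j * star (u j)) := by
            rw [hf.pu, hf.pu]; noncomm_ring
        _ = u i * x * star (u j) := by
            rw [hf.uuu]
            have := congrArg star (hf.uuu j)
            rw [star_mul, star_mul, star_star] at this
            rw [mul_assoc (star (u j)), this]
    · intro k _ hk
      have h1 : w i * (star (w i) * t (u i * x * star (u k)) * w k) * star (w j) =
        w i * star (w i) * t (u i * x * star (u k)) * (w k * star (w j)) := by noncomm_ring
      rw [h1, hf.ow k j hk, mul_zero]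
    · simp
  · intro k _ hk
    rw [Finset.mul_sum, Finset.sum_mul]
    apply Finset.sum_eq_zero
    intro l _
    have h1 : w i * (star (w k) * t (u k * x * star (u l)) * w l) * star (w j) =
        (w i * star (w k)) * t (u k * x * star (u l)) * (w l * star (w j)) := by noncomm_ring
    rw [h1, hf.ow i k hk.symm, zero_mul, zero_mul]
  · simp

theorem Th_mul (hc : CMap p q t) (hf : Fr p q t u w) (x y : A) :
    Th t u w (x * y) = Th t u w x * Th t u w y := by
  have key : ∀ i k, t (u i * (x * y) * star (u k)) =
      ∑ j, t (u i * x * star (u j)) * t (u j * y * star (u k)) := by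
    intro i k
    have h1 : u i * (x * y) * star (u k) =
        ∑ j, u i * x * star (u j) * p * (u j * y * star (u k)) := by
      calc u i * (x * y) * star (u k) = u i * x * 1 * y * star (u k) := by noncomm_ring
        _ = ∑ j, u i * x * (star (u j) * u j) * y * star (u k) := by
            rw [← hf.su, Finset.mul_sum, Finset.sum_mul, Finset.sum_mul]
        _ = _ := by
            apply Finset.sum_congr rfl
            intro j _
            have := hf.pu j
            calc u i * x * (star (u j) * u j) * y * star (u k)
                = u i * x * star (u j) * u j * y * star (u k) := by noncomm_ring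
              _ = u i * x * star (u j) * (p * u j) * y * star (u k) := by rw [this]
              _ = _ := by noncomm_ring
    rw [h1, hc.sum]
    apply Finset.sum_congr rfl
    intro j _
    rw [hc.mul]
  have h2 : Th t u w x * Th t u w y =
      ∑ i, ∑ k, star (w i) * (w i * Th t u w x * Th t u w y * star (w k)) * w k := by
    calc Th t u w x * Th t u w y = 1 * (Th t u w x * Th t u w y) * 1 := by noncomm_ring
      _ = (∑ i, star (w i) * w i) * (Th t u w x * Th t u w y) * ∑ k, star (w k) * w k := by
          rw [hf.sw]
      _ = _ := by
          rw [Finset.sum_mul, Finset.sum_mul]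
          apply Finset.sum_congr rfl
          intro i _
          rw [Finset.mul_sum]
          apply Finset.sum_congr rfl
          intro k _
          noncomm_ring
  rw [h2]
  unfold Th
  apply Finset.sum_congr rfl
  intro i _
  apply Finset.sum_congr rfl
  intro k _
  congr 2
  change _ = w i * Th t u w x * Th t u w y * star (w k)
  rw [key]
  calc ∑ j, t (u i * x * star (u j)) * t (u j * y * star (u k))
      = ∑ j, (w i * Th t u w x * star (w j)) * (w j * Th t u w y * star (w k)) := by
        apply Finset.sum_congr rfl
        intro j _
        rw [wThw hc hf, wThw hc hf]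
    _ = w i * Th t u w x * (∑ j, star (w j) * w j) * Th t u w y * star (w k) := by
        rw [Finset.mul_sum, Finset.sum_mul, Finset.sum_mul]
        apply Finset.sum_congr rfl
        intro j _
        noncomm_ring
    _ = _ := by rw [hf.sw, mul_one]

theorem Th_ext (hf : Fr p q t u w) (y z : B)
    (h : ∀ i j, w i * y * star (w j) = w i * z * star (w j)) : y = z := by
  have key : ∀ y : B, y = ∑ i, ∑ k, star (w i) * (w i * y * star (w k)) * w k := by
    intro y
    calc y = 1 * y * 1 := by noncomm_ring
      _ = (∑ i, star (w i) * w i) * y * ∑ k, star (w k) * w k := by rw [hf.sw]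
      _ = _ := by
          rw [Finset.sum_mul, Finset.sum_mul]
          apply Finset.sum_congr rfl
          intro i _
          rw [Finset.mul_sum]
          apply Finset.sum_congr rfl
          intro k _
          noncomm_ring
  rw [key y, key z]
  simp only [h]

theorem Th_ext' (hf : Fr p q t u w) (y z : A)
    (h : ∀ i j, u i * y * star (u j) = u i * z * star (u j)) : y = z := by
  have key : ∀ y : A, y = ∑ i, ∑ k, star (u i) * (u i * y * star (u k)) * u k := by
    intro y
    calc y = 1 * y * 1 := by noncomm_ring
      _ = (∑ i, star (u i) * u i) * y * ∑ k, star (u k) * u k := by rw [hf.su]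
      _ = _ := by
          rw [Finset.sum_mul, Finset.sum_mul]
          apply Finset.sum_congr rfl
          intro i _
          rw [Finset.mul_sum]
          apply Finset.sum_congr rfl
          intro k _
          noncomm_ring
  rw [key y, key z]
  simp only [h]

theorem frame_iso (hc : CMap p q t) (hf : Fr p q t u w) : Nonempty (A ≃⋆ₐ[ℂ] B) := by
  have hadd : ∀ x y, Th t u w (x + y) = Th t u w x + Th t u w y := by
    intro x y
    unfold Th
    rw [← Finset.sum_add_distrib]
    apply Finset.sum_congr rfl
    intro i _
    rw [← Finset.sum_add_distrib]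
    apply Finset.sum_congr rfl
    intro j _
    rw [mul_add, add_mul, hc.add]; noncomm_ring
  have hsmul : ∀ (c : ℂ) x, Th t u w (c • x) = c • Th t u w x := by
    intro c x
    unfold Th
    rw [Finset.smul_sum]
    apply Finset.sum_congr rfl
    intro i _
    rw [Finset.smul_sum]
    apply Finset.sum_congr rfl
    intro j _
    rw [mul_smul_comm, smul_mul_assoc, hc.smul, mul_smul_comm, smul_mul_assoc]
  have hstar : ∀ x, Th t u w (star x) = star (Th t u w x) := by
    intro x
    unfold Th
    rw [star_sum, Finset.sum_comm]
    apply Finset.sum_congr rfl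
    intro i _
    rw [star_sum]
    apply Finset.sum_congr rfl
    intro j _
    rw [star_mul, star_mul, star_star, ← hc.stm, star_mul, star_mul, star_star]
    simp only [mul_assoc]
  have hone : Th t u w 1 = 1 := by
    apply Th_ext hf
    intro i j
    rw [wThw hc hf, mul_one, mul_one]
    by_cases hij : i = j
    · subst hij; rw [hf.rw']
    · rw [hf.ou i j hij, hf.ow i j hij, hc.zero]
  have hinj : Function.Injective (Th t u w) := by
    intro x y hxy
    apply Th_ext' hf
    intro i j
    have h1 : t (u i * (x - y) * star (u j)) = 0 := by
      rw [← wThw hc hf]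
      have : Th t u w (x - y) = 0 := by
        have h2 : Th t u w (x - y) = Th t u w x + Th t u w ((-1 : ℂ) • y) := by
          rw [← hadd]; congr 1; simp [sub_eq_add_neg]
        rw [h2, hsmul, hxy]; simp
      rw [this]; simp
    have h2 := hc.inj _ h1
    have h3 : p * (u i * (x - y) * star (u j)) * p = u i * (x - y) * star (u j) := by
      calc p * (u i * (x - y) * star (u j)) * p = (p * u i) * (x - y) * (star (u j) * p) := by
            noncomm_ring
        _ = _ := by rw [hf.pu, hf.up]
    rw [h3] at h2
    have h4 : u i * (x - y) * star (u j) = u i * x * star (u j) - u i * y * star (u j) := by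
      noncomm_ring
    rw [h4] at h2
    exact sub_eq_zero.1 h2
  have hsurj : Function.Surjective (Th t u w) := by
    intro y
    have hex : ∀ i j, ∃ x, p * x * p = x ∧ t x = w i * y * star (w j) := by
      intro i j
      apply hc.surj
      calc q * (w i * y * star (w j)) * q = (q * w i) * y * (star (w j) * q) := by noncomm_ring
        _ = _ := by rw [hf.qw, hf.wq]
    choose a ha1 ha2 using hex
    refine ⟨∑ i, ∑ j, star (u i) * a i j * u j, ?_⟩
    apply Th_ext hf
    intro k l
    rw [wThw hc hf]
    have h1 : u k * (∑ i, ∑ j, star (u i) * a i j * u j) * star (u l) =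
        u k * star (u k) * p * a k l * p * (u l * star (u l)) := by
      rw [Finset.mul_sum, Finset.sum_mul, Finset.sum_eq_single k]
      · rw [Finset.mul_sum, Finset.sum_mul, Finset.sum_eq_single l]
        · conv_lhs => rw [← ha1 k l]
          noncomm_ring
        · intro j _ hj
          have : u k * (star (u k) * a k j * u j) * star (u l) =
            u k * star (u k) * a k j * (u j * star (u l)) := by noncomm_ring
          rw [this, hf.ou j l hj, mul_zero]
        · simp
      · intro i _ hi
        rw [Finset.mul_sum, Finset.sum_mul]
        apply Finset.sum_eq_zero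
        intro j _
        have : u k * (star (u i) * a i j * u j) * star (u l) =
            (u k * star (u i)) * a i j * (u j * star (u l)) := by noncomm_ring
        rw [this, hf.ou k i hi.symm, zero_mul, zero_mul]
      · simp
    rw [h1, ← hc.mul, ← hc.mul, ← hf.rw', ← hf.rw', ha2]
    have h2 := congrArg star (hf.www l)
    rw [star_mul, star_mul, star_star] at h2
    calc w k * star (w k) * (w k * y * star (w l)) * (w l * star (w l))
        = (w k * star (w k) * w k) * y * (star (w l) * (w l * star (w l))) := by noncomm_ring
      _ = _ := by rw [hf.www, h2]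
  refine ⟨StarAlgEquiv.ofBijective
    ({ toFun := Th t u w
       map_one' := hone
       map_mul' := Th_mul hc hf
       map_zero' := by
        have := hsmul 0 0
        simpa using this
       map_add' := hadd
       commutes' := fun c => by
        rw [Algebra.algebraMap_eq_smul_one, Algebra.algebraMap_eq_smul_one]
        change Th t u w (c • (1 : A)) = _
        rw [hsmul, hone]
       map_star' := hstar } : A →⋆ₐ[ℂ] B) ⟨hinj, hsurj⟩⟩

/-- The product formula behind the trace property. -/
theorem t_prod (hc : CMap p q t) (hpu : ∀ i, p * u i = u i) (hsu : ∑ i, star (u i) * u i = 1)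
    (x y : A) (i k : ι) : t (u i * (x * y) * star (u k)) =
      ∑ j, t (u i * x * star (u j)) * t (u j * y * star (u k)) := by
  have h1 : u i * (x * y) * star (u k) =
      ∑ j, u i * x * star (u j) * p * (u j * y * star (u k)) := by
    calc u i * (x * y) * star (u k) = u i * x * 1 * y * star (u k) := by noncomm_ring
      _ = ∑ j, u i * x * (star (u j) * u j) * y * star (u k) := by
          rw [← hsu, Finset.mul_sum, Finset.sum_mul, Finset.sum_mul]
      _ = _ := by
          apply Finset.sum_congr rfl
          intro j _
          have := hpu j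
          calc u i * x * (star (u j) * u j) * y * star (u k)
              = u i * x * star (u j) * u j * y * star (u k) := by noncomm_ring
            _ = u i * x * star (u j) * (p * u j) * y * star (u k) := by rw [this]
            _ = _ := by noncomm_ring
  rw [h1, hc.sum]
  apply Finset.sum_congr rfl
  intro j _
  rw [hc.mul]

theorem phi_comm (hc : CMap p q t) (hpu : ∀ i, p * u i = u i)
    (hsu : ∑ i, star (u i) * u i = 1) (σ : B →ₗ[ℂ] ℂ) (hσ : ∀ x y, σ (x * y) = σ (y * x))
    (x y : A) : ∑ i, σ (t (u i * (x * y) * star (u i))) =
      ∑ i, σ (t (u i * (y * x) * star (u i))) := by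
  simp only [t_prod hc hpu hsu, map_sum]
  rw [Finset.sum_comm]
  apply Finset.sum_congr rfl
  intro i _
  apply Finset.sum_congr rfl
  intro j _
  rw [hσ]

theorem phi_pos (hc : CMap p q t) (hpu : ∀ i, p * u i = u i)
    (hsu : ∑ i, star (u i) * u i = 1) (σ : B →ₗ[ℂ] ℂ)
    (hσ : ∀ x, 0 ≤ σ (star x * x)) (x : A) :
    0 ≤ ∑ i, σ (t (u i * (star x * x) * star (u i))) := by
  simp only [t_prod hc hpu hsu, map_sum]
  apply Finset.sum_nonneg
  intro i _
  apply Finset.sum_nonneg
  intro j _
  have : t (u i * star x * star (u j)) = star (t (u j * x * star (u i))) := by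
    rw [← hc.stm, star_mul, star_mul, star_star, mul_assoc]
  rw [this]
  exact hσ _

end Pool.Agent.W991.KKS
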