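import Pool.Agent.W662.KKS.Stmts3
import Pool.Agent.Helper278.Factor
import Pool.Agent.Helper278.RGNC
import Pool.Agent.Helper278.GroupMain
import Pool.Agent.W991.KKS.Frame

set_option autoImplicit false
set_option linter.unusedSectionVars false

open scoped InnerProductSpace ComplexOrder
open Pool.Agent.Helper278

namespace Pool.Agent.W991.KKS

open Pool.Agent.W662.KKS

universe u

variable {H : Type u} [NormedAddCommGroup H] [InnerProductSpace ℂ H] [CompleteSpace H]
variable {N : VonNeumannAlgebra H}

/-- Comparison with a projection of trace at least one half. -/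
theorem cmpT (T : TracialState N) (hN : HasTrivialCenter N) (q : Elt N)
    (hq : star q = q) (hqq : q * q = q) (hτ : 1 / 2 ≤ (T.τ q).re) :
    ∃ v : Elt N, star v * v = 1 - q ∧ q * v = v := by
  have hA := trAlg T
  set p : Elt N := 1 - q with hpdef
  have hp : star p = p := by rw [hpdef, star_sub, star_one, hq]
  have hpp : p * p = p := by
    have : p * p = 1 - q - q + q * q := by rw [hpdef]; noncomm_ring
    rw [this, hqq, hpdef]; abel
  have hp' : star (p : H →L[ℂ] H) = p := congrArg Subtype.val hp
  have hpp' : (p : H →L[ℂ] H) * p = p := congrArg Subtype.val hpp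
  have hq' : star (q : H →L[ℂ] H) = q := congrArg Subtype.val hq
  have hqq' : (q : H →L[ℂ] H) * q = q := congrArg Subtype.val hqq
  obtain ⟨w, hwN, hw1, hqp, hext⟩ := exists_extreme_corner N (p : H →L[ℂ] H) (q : H →L[ℂ] H)
  have hpi := extreme_partial' N hwN hpp' hqq' hp' hw1 hqp hext
  have hcor := extreme_corner' N hwN p.2 q.2 hp' hpp' hqq' hq' hqp hpi hext
  have hwp : w * p = w := by
    calc w * p = q * w * p * p := by rw [hqp]
      _ = q * w * ((p : H →L[ℂ] H) * p) := by rw [mul_assoc ((q : H →L[ℂ] H) * w)]
      _ = w := by rw [hpp', hqp]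
  have hqw : q * w = w := by
    calc q * w = q * (q * w * p) := by rw [hqp]
      _ = ((q : H →L[ℂ] H) * q) * w * p := by noncomm_ring
      _ = w := by rw [hqq', hqp]
  let W : Elt N := ⟨w, hwN⟩
  have hWpi : W * (star W * W) = W := Subtype.ext hpi
  have hWp : W * p = W := Subtype.ext hwp
  have hqW : q * W = W := Subtype.ext hqw
  have hpW : p * star W = star W := by
    have := congrArg star hWp
    rwa [star_mul, hp] at this
  have e1 : star W * W * star W = star W := by
    have := congrArg star hWpi
    rwa [star_mul, star_mul, star_star] at this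
  have hf : star (p - star W * W) * (p - star W * W) = p - star W * W := by
    have h1 : star W * W * (star W * W) = star W * W := by rw [← mul_assoc, e1]
    have h2 : p * (star W * W) = star W * W := by rw [← mul_assoc, hpW]
    have h3 : star W * W * p = star W * W := by rw [mul_assoc, hWp]
    rw [star_sub, hp, star_mul, star_star]
    calc (p - star W * W) * (p - star W * W) =
        p * p - p * (star W * W) - star W * W * p + star W * W * (star W * W) := by noncomm_ring
      _ = p - star W * W := by rw [h1, h2, h3, hpp]; abel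
  have hor := factor_corner N hN ((q - W * star W : Elt N) : H →L[ℂ] H)
    ((p - star W * W : Elt N) : H →L[ℂ] H) (q - W * star W).2 (p - star W * W).2
    (fun x hx => hcor x hx)
  refine ⟨W, ?_, hqW⟩
  have hgoal : p - star W * W = 0 := by
    rcases hor with h0 | h0
    · have h1 : q - W * star W = 0 := Subtype.ext h0
      have h2 : W * star W = q := (sub_eq_zero.1 h1).symm
      have h3 : T.τ (p - star W * W) = 1 - 2 * T.τ q := by
        rw [map_sub, hA.comm (star W) W, h2, hpdef, map_sub, T.map_one]; ring
      have h4 := hA.re_nonneg (p - star W * W)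
      have h5 := hA.im_zero (p - star W * W)
      rw [hf] at h4 h5
      have h6 : (T.τ (p - star W * W)).re = 0 := by
        apply le_antisymm _ h4
        rw [h3]
        simp only [Complex.sub_re, Complex.one_re, Complex.mul_re, Complex.re_ofNat,
          Complex.im_ofNat, zero_mul, sub_zero]
        linarith
      apply hA.faithful
      rw [hf]
      exact Complex.ext h6 h5
    · exact Subtype.ext h0
  exact (sub_eq_zero.1 hgoal).symm

theorem ampl : S_AMPL := by
  intro H _ _ _ M N τ σ p h1 h2 θ θ' hM hN hp hpp htr hhalf hC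
  let T := mkState M τ hM.normal hM.trace
  let S := mkState N σ hN.normal hN.trace
  have hSA := trAlg S
  let P : Elt M := ⟨p, h1⟩
  let Q : Elt N := ⟨p, h2⟩
  have hP : star P = P := Subtype.ext hp
  have hPP : P * P = P := Subtype.ext hpp
  have hQ : star Q = Q := Subtype.ext hp
  have hQQ : Q * Q = Q := Subtype.ext hpp
  have hcor : ∀ x : H →L[ℂ] H, p * (p * x * p) * p = p * x * p := by
    intro x
    calc p * (p * x * p) * p = (p * p) * x * (p * p) := by noncomm_ring
      _ = _ := by rw [hpp]
  have hmem : ∀ x ∈ M, p * x * p ∈ M := fun x hx => mul_mem (mul_mem h1 hx) h1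
  have hmem' : ∀ x ∈ N, p * x * p ∈ N := fun x hx => mul_mem (mul_mem h2 hx) h2
  have h0 : θ 0 = 0 := by
    have := hC.smul 0 0 (zero_mem M) (by simp)
    simpa using this
  have h0' : θ' 0 = 0 := by
    have := hC.left 0 (zero_mem M) (by simp)
    rwa [h0] at this
  let t : Elt M → Elt N := fun x => ⟨θ (p * x * p), (hC.map _ (hmem x x.2) (hcor x)).1⟩
  have ht : ∀ x : Elt M, ((t x : Elt N) : H →L[ℂ] H) = θ (p * x * p) := fun x => rfl
  have hc : CMap P Q t := by
    refine ⟨?_, ?_, ?_, ?_, ?_, ?_⟩
    · intro x y
      apply Subtype.ext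
      change θ (p * (x + y : H →L[ℂ] H) * p) = θ (p * x * p) + θ (p * y * p)
      rw [← hC.add _ (hmem x x.2) _ (hmem y y.2) (hcor x) (hcor y)]
      congr 1; noncomm_ring
    · intro c x
      apply Subtype.ext
      change θ (p * (c • (x : H →L[ℂ] H)) * p) = c • θ (p * x * p)
      rw [← hC.smul c _ (hmem x x.2) (hcor x), mul_smul_comm, smul_mul_assoc]
    · intro x
      apply Subtype.ext
      change θ (p * star (x : H →L[ℂ] H) * p) = star (θ (p * x * p))
      rw [← hC.stm _ (hmem x x.2) (hcor x), star_mul, star_mul, hp, mul_assoc]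
    · intro x y
      apply Subtype.ext
      change θ (p * x * p) * θ (p * y * p) = θ (p * (x * p * y : H →L[ℂ] H) * p)
      rw [← hC.mul _ (hmem x x.2) _ (hmem y y.2) (hcor x) (hcor y)]
      congr 1
      calc p * (x : H →L[ℂ] H) * p * (p * y * p) = p * x * (p * p) * y * p := by noncomm_ring
        _ = _ := by rw [hpp]; noncomm_ring
    · intro x hx
      have hx' : θ (p * x * p) = 0 := congrArg Subtype.val hx
      have := hC.left _ (hmem x x.2) (hcor x)
      rw [hx', h0'] at this
      exact Subtype.ext this.symm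
    · intro y hy
      have hy' : p * (y : H →L[ℂ] H) * p = y := congrArg Subtype.val hy
      obtain ⟨hm, hm2⟩ := hC.map' y y.2 hy'
      refine ⟨⟨θ' y, hm⟩, Subtype.ext hm2, Subtype.ext ?_⟩
      change θ (p * θ' y * p) = y
      rw [hm2, hC.right y y.2 hy']
  have htQ : ∀ x, Q * t x * Q = t x := fun x =>
    Subtype.ext (hC.map _ (hmem x x.2) (hcor x)).2
  have hQt : ∀ x, Q * t x = t x := fun x => by
    rw [← htQ x, ← mul_assoc, ← mul_assoc, hQQ]
  have htQ' : ∀ x, t x * Q = t x := fun x => by
    rw [← htQ x, mul_assoc (Q * t x), hQQ]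
  have htP : t P = Q := by
    obtain ⟨x, hx1, hx2⟩ := hc.surj Q (by rw [hQQ, hQQ])
    have e1 : t P * Q = Q := by
      rw [← hx2, hc.mul, hPP]
      have : P * x = x := by rw [← hx1, ← mul_assoc, ← mul_assoc, hPP]
      rw [this]
    rw [← e1, htQ']
  -- comparison in `M`
  obtain ⟨v, hv1, hv2⟩ := cmpT T hM.center P hP hPP hhalf
  have hvP : v * P = 0 := by
    have h3 : star (v * P) * (v * P) = 0 := by
      rw [star_mul, hP]
      calc P * star v * (v * P) = P * (star v * v) * P := by noncomm_ring
        _ = P * P - P * P * P := by rw [hv1]; noncomm_ring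
        _ = 0 := by rw [hPP, hPP, sub_self]
    exact CStarRing.star_mul_self_eq_zero_iff _ |>.1 h3
  let u : Fin 2 → Elt M := ![P, v]
  have hpu : ∀ i, P * u i = u i := by
    intro i; fin_cases i
    · exact hPP
    · exact hv2
  have hsu : ∑ i, star (u i) * u i = 1 := by
    rw [Fin.sum_univ_two]
    change star P * P + star v * v = 1
    rw [hP, hPP, hv1]; abel
  -- the trace
  let s : ℂ := S.τ (t (v * star v))
  let φ : Elt M →ₗ[ℂ] ℂ :=
    { toFun := fun x => ∑ i, S.τ (t (u i * x * star (u i)))
      map_add' := fun x y => by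
        rw [← Finset.sum_add_distrib]
        apply Finset.sum_congr rfl
        intro i _
        rw [mul_add, add_mul, hc.add, map_add]
      map_smul' := fun c x => by
        rw [RingHom.id_apply, smul_eq_mul, Finset.mul_sum]
        apply Finset.sum_congr rfl
        intro i _
        rw [mul_smul_comm, smul_mul_assoc, hc.smul, map_smul, smul_eq_mul] }
  have hφ : ∀ x, φ x = ∑ i, S.τ (t (u i * x * star (u i))) := fun x => rfl
  have hSpos : ∀ x : Elt N, 0 ≤ S.τ (star x * x) := by
    intro x
    rw [Complex.le_def]
    exact ⟨hSA.re_nonneg x, (hSA.im_zero x).symm⟩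
  have htr' : S.τ Q = T.τ P := htr.symm
  have hφ1 : φ 1 = T.τ P + s := by
    rw [hφ, Fin.sum_univ_two]
    change S.τ (t (P * 1 * star P)) + S.τ (t (v * 1 * star v)) = _
    rw [mul_one, mul_one, hP, hPP, htP, htr']
  have hφP : φ P = T.τ P := by
    rw [hφ, Fin.sum_univ_two]
    change S.τ (t (P * P * star P)) + S.τ (t (v * P * star v)) = _
    rw [hvP, zero_mul, hc.zero, map_zero, add_zero, hP, hPP, hPP, htP, htr']
  have hφcomm : ∀ x y, φ (x * y) = φ (y * x) := by
    intro x y
    rw [hφ, hφ]
    exact phi_comm hc hpu hsu S.τ S.tracial x y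
  have hφpos : ∀ x, 0 ≤ φ (star x * x) := by
    intro x
    rw [hφ]
    exact phi_pos hc hpu hsu S.τ hSpos x
  have hs0 : 0 ≤ s := by
    have h3 := hφpos v
    have h4 : φ (star v * v) = s := by
      rw [hv1, map_sub, hφ1, hφP]; ring
    rwa [h4] at h3
  have hP0 : 0 ≤ T.τ P := by
    have h3 : S.τ (star Q * Q) = T.τ P := by rw [hQ, hQQ, htr']
    rw [← h3]; exact hSpos _
  have hPne : T.τ P ≠ 0 := by
    intro h3
    have h4 : (1 : ℝ) / 2 ≤ (T.τ P).re := hhalf
    rw [h3] at h4
    norm_num at h4
  have hcne : T.τ P + s ≠ 0 := by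
    intro h3
    have h4 : T.τ P ≤ T.τ P + s := le_add_of_nonneg_right hs0
    rw [h3] at h4
    exact hPne (le_antisymm h4 hP0)
  have hψ : IsTr ((T.τ P + s)⁻¹ • φ) := by
    refine ⟨?_, ?_, ?_⟩
    · rw [LinearMap.smul_apply, hφ1, smul_eq_mul, inv_mul_cancel₀ hcne]
    · intro x y
      rw [LinearMap.smul_apply, LinearMap.smul_apply, hφcomm]
    · intro x
      rw [LinearMap.smul_apply, smul_eq_mul]
      apply mul_nonneg _ (hφpos x)
      have h3 : 0 ≤ T.τ P + s := add_nonneg hP0 hs0
      exact inv_nonneg.2 h3
  have huniq := RG.trace_unique_base T (lyapProp T (diffuse_of_factor T hM.center hM.infinite))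
    hM.center _ hψ P
  have hsum : T.τ P + s = 1 := by
    rw [LinearMap.smul_apply, hφP, smul_eq_mul] at huniq
    have h3 : (T.τ P + s)⁻¹ = 1 := mul_right_cancel₀ hPne (by rw [huniq, one_mul])
    exact inv_eq_one.1 h3
  -- partial isometry in `N`
  have hvvv : v * star v * v = v := by
    rw [mul_assoc, hv1, mul_sub, mul_one, hvP, sub_zero]
  have hr1 : star (t (v * star v)) = t (v * star v) := by
    rw [← hc.stm, star_mul, star_star]
  have hr2 : t (v * star v) * t (v * star v) = t (v * star v) := by
    rw [hc.mul]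
    congr 1
    have h3 : star v * P = star v := by
      have := congrArg star hv2
      rwa [star_mul, hP] at this
    calc v * star v * P * (v * star v) = v * (star v * P) * v * star v := by noncomm_ring
      _ = (v * star v * v) * star v := by rw [h3]
      _ = _ := by rw [hvvv]
  obtain ⟨v', hv'1, hv'2⟩ := exists_equiv S hN.center (1 - Q) (t (v * star v))
    (by rw [star_sub, star_one, hQ])
    (by
      have : (1 - Q) * (1 - Q) = 1 - Q - Q + Q * Q := by noncomm_ring
      rw [this, hQQ]; abel) hr1 hr2
    (by
      rw [map_sub, S.map_one, htr', ← hsum]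
      change T.τ P + s - T.τ P = s
      ring)
  have hv'Q : v' * Q = 0 := by
    have h3 : star (v' * Q) * (v' * Q) = 0 := by
      rw [star_mul, hQ]
      calc Q * star v' * (v' * Q) = Q * (star v' * v') * Q := by noncomm_ring
        _ = Q * Q - Q * Q * Q := by rw [hv'1]; noncomm_ring
        _ = 0 := by rw [hQQ, hQQ, sub_self]
    exact CStarRing.star_mul_self_eq_zero_iff _ |>.1 h3
  have hv'vv : v' * star v' * v' = v' := by
    rw [mul_assoc, hv'1, mul_sub, mul_one, hv'Q, sub_zero]
  have hQv' : Q * v' = v' := by
    calc Q * v' = Q * (v' * star v' * v') := by rw [hv'vv]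
      _ = (Q * (v' * star v')) * v' := by noncomm_ring
      _ = _ := by rw [hv'2, hQt, ← hv'2, hv'vv]
  let w : Fin 2 → Elt N := ![Q, v']
  have hPv : P * star v = 0 := by
    have := congrArg star hvP
    rwa [star_mul, hP, star_zero] at this
  have hQv : Q * star v' = 0 := by
    have := congrArg star hv'Q
    rwa [star_mul, hQ, star_zero] at this
  have hf : Fr P Q t u w := by
    refine ⟨hP, hQ, hpu, ?_, hsu, ?_, ?_, ?_, ?_⟩
    · intro i; fin_cases i
      · exact hQQ
      · exact hQv'
    · rw [Fin.sum_univ_two]
      change star Q * Q + star v' * v' = 1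
      rw [hQ, hQQ, hv'1]; abel
    · intro i j hij
      fin_cases i <;> fin_cases j
      · exact absurd rfl hij
      · exact hPv
      · change v * star P = 0
        rw [hP, hvP]
      · exact absurd rfl hij
    · intro i j hij
      fin_cases i <;> fin_cases j
      · exact absurd rfl hij
      · exact hQv
      · change v' * star Q = 0
        rw [hQ, hv'Q]
      · exact absurd rfl hij
    · intro i
      fin_cases i
      · change Q * star Q = t (P * star P)
        rw [hQ, hQQ, hP, hPP, htP]
      · exact hv'2
  exact frame_iso hc hf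

end Pool.Agent.W991.KKS
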