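import Pool.Agent.W662.KKS.Stmts3
import Pool.Agent.W475.KKS.Cmp
import Pool.Agent.W393.KKS.Mix
import Pool.Agent.W345.KKS.Pol

set_option autoImplicit false
set_option linter.unusedSectionVars false

open scoped InnerProductSpace ComplexOrder
open Pool.Agent.Helper278

namespace Pool.Agent.W991.KKS

open Pool.Agent.W662.KKS

section

variable {H : Type} [NormedAddCommGroup H] [InnerProductSpace ℂ H] [CompleteSpace H]

theorem inner_sa' (ξ : H) (x : H →L[ℂ] H) (hx : star x = x) :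
    star (⟪ξ, x ξ⟫_ℂ) = ⟪ξ, x ξ⟫_ℂ := by
  rw [Complex.star_def, inner_conj_symm]
  conv_lhs => rw [← hx]
  rw [ContinuousLinearMap.star_eq_adjoint, ContinuousLinearMap.adjoint_inner_left]

/-- The corner of a factor has trivial centre. -/
theorem corner_center (M : VonNeumannAlgebra H) (hM : HasTrivialCenter M) (ξ : H)
    (hf : ∀ x ∈ M, ⟪ξ, (star x * x) ξ⟫_ℂ = 0 → x = 0) (p x : H →L[ℂ] H) (hpM : p ∈ M)
    (hp : star p = p) (hpp : p * p = p) (hpξ : ⟪ξ, p ξ⟫_ℂ ≠ 0) (hxM : x ∈ M)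
    (hx : p * x * p = x) (hc : ∀ y ∈ M, x * (p * y * p) = p * y * p * x) :
    ∃ c : ℂ, x = c • p := by
  have hpx : p * x = x := by
    rw [← hx]; rw [← mul_assoc, ← mul_assoc, hpp]
  have hxp : x * p = x := by
    rw [← hx]; rw [mul_assoc, hpp]
  have hxsp : star x * p = star x := by
    have := congrArg star hpx
    rwa [star_mul, hp] at this
  have hpxs : p * star x = star x := by
    have := congrArg star hxp
    rwa [star_mul, hp] at this
  have hcs : ∀ y ∈ M, star x * (p * y * p) = p * y * p * star x := by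
    intro y hy
    have h1 := congrArg star (hc (star y) (star_mem hy))
    simp only [star_mul, star_star, hp] at h1
    simp only [mul_assoc] at h1 ⊢
    exact h1.symm
  have key : ∀ a ∈ M, star a = a → p * a = a → a * p = a →
      (∀ y ∈ M, a * (p * y * p) = p * y * p * a) → ∃ c : ℂ, a = c • p := by
    intro a haM has hpa hap hca
    set μ : ℂ := ⟪ξ, a ξ⟫_ℂ / ⟪ξ, p ξ⟫_ℂ with hμ
    have hμs : star μ = μ := by
      rw [hμ, Complex.star_def, map_div₀, ← Complex.star_def, inner_sa' ξ a has,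
        inner_sa' ξ p hp]
    refine ⟨μ, ?_⟩
    have h0 := W393.KKS.scalar_corner M hM ξ hf p (a - μ • p) hp
      (sub_mem haM (M.toStarSubalgebra.smul_mem hpM _))
      (by rw [star_sub, star_smul, has, hp, hμs])
      (by rw [mul_sub, mul_smul_comm, hpa, hpp]) (by rw [sub_mul, smul_mul_assoc, hap, hpp])
      (by
        intro y hy
        rw [sub_mul, mul_sub, hca y hy, smul_mul_assoc, mul_smul_comm]
        congr 2
        calc p * (p * y * p) = (p * p) * y * p := by noncomm_ring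
          _ = p * y * (p * p) := by rw [hpp]
          _ = _ := by noncomm_ring)
      (by
        have : (a - μ • p) ξ = a ξ - μ • p ξ := rfl
        rw [this, inner_sub_right, inner_smul_right, hμ, div_mul_cancel₀ _ hpξ, sub_self])
    exact sub_eq_zero.1 h0
  obtain ⟨c1, h1⟩ := key (x + star x) (add_mem hxM (star_mem hxM))
    (by rw [star_add, star_star, add_comm]) (by rw [mul_add, hpx, hpxs])
    (by rw [add_mul, hxp, hxsp])
    (by intro y hy; rw [add_mul, mul_add, hc y hy, hcs y hy])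
  obtain ⟨c2, h2⟩ := key (Complex.I • (x - star x))
    (M.toStarSubalgebra.smul_mem (sub_mem hxM (star_mem hxM)) _)
    (by
      rw [star_smul, star_sub, star_star]
      have : star Complex.I = -Complex.I := Complex.conj_I
      rw [this, neg_smul, ← smul_neg, neg_sub])
    (by rw [mul_smul_comm, mul_sub, hpx, hpxs]) (by rw [smul_mul_assoc, sub_mul, hxp, hxsp])
    (by intro y hy; rw [smul_mul_assoc, mul_smul_comm, sub_mul, mul_sub, hc y hy, hcs y hy])
  refine ⟨(1 / 2 : ℂ) * (c1 + (-Complex.I) * c2), ?_⟩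
  have h3 : x - star x = (-Complex.I * c2) • p := by
    rw [mul_smul, ← h2, smul_smul]
    simp
  have h4 : x = (1 / 2 : ℂ) • ((x + star x) + (x - star x)) := by
    have : (x + star x) + (x - star x) = (2 : ℂ) • x := by rw [two_smul]; abel
    rw [this, smul_smul]; norm_num
  rw [h4, h1, h3, ← add_smul, smul_smul]

/-- vector states are normal -/
theorem normal_vec (M : VonNeumannAlgebra H) (ξ : H) :
    IsNormalPositive M (fun x : Elt M => ⟪ξ, (x : H →L[ℂ] H) ξ⟫_ℂ) := by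
  refine ⟨fun k => if k = 0 then ξ else 0, ?_, ?_⟩
  · apply summable_of_ne_finset_zero (s := {0})
    intro k hk
    have : k ≠ 0 := by simpa using hk
    simp [this]
  · intro x
    rw [tsum_eq_single 0]
    · simp
    · intro k hk
      simp [hk]

theorem std_trace (M : VonNeumannAlgebra H) (ξ : H) (ρ : (H →L[ℂ] H) → (H →L[ℂ] H))
    (hS : Std M ξ ρ) : IsFaithfulTrace (fun x : Elt M => ⟪ξ, (x : H →L[ℂ] H) ξ⟫_ℂ) where
  one := by
    show ⟪ξ, (1 : H →L[ℂ] H) ξ⟫_ℂ = 1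
    rw [one_apply_eq_self, inner_self_eq_norm_sq_to_K, hS.unit]
    norm_num
  tracial x y := hS.tr x x.2 y y.2
  faithful x hx := by
    apply Subtype.ext
    apply hS.sep x x.2
    have h1 : ⟪ξ, (star (x : H →L[ℂ] H) * (x : H →L[ℂ] H)) ξ⟫_ℂ = 0 := hx
    rw [mul_apply_eq_comp, ContinuousLinearMap.star_eq_adjoint,
      ContinuousLinearMap.adjoint_inner_right, inner_self_eq_zero] at h1
    exact h1

end

theorem gci (h : S_CINST) (h2 : S_HH) : S_GCI := by
  obtain ⟨K1, hK1, hHH⟩ := h2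
  refine ⟨max K1 100, le_max_of_le_left hK1, ?_⟩
  intro H _ _ _ M N τ ξ ρ A γ w p hM hI hγ hγK hw hwA hwρ hpA hp hpp hpξ hRD
  have hKpos : (0 : ℝ) < K1 := by linarith
  have hKK : (1 : ℝ) / max K1 100 ≤ 1 / K1 := one_div_le_one_div_of_le hKpos (le_max_left _ _)
  have hK100 : (1 : ℝ) / max K1 100 ≤ 1 / 100 :=
    one_div_le_one_div_of_le (by norm_num) (le_max_right _ _)
  have hpM : p ∈ M := hI.masa.le p hpA
  have hpN : p ∈ N := hI.AN p hpA
  have hξ1 : ‖ξ‖ = 1 := hI.std.unit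
  have hne : p ξ ≠ 0 := by
    intro h0
    have : (1 - p) ξ = ξ := by
      change ξ - p ξ = ξ
      rw [h0, sub_zero]
    rw [this, hξ1] at hpξ
    norm_num at hpξ
  obtain ⟨K, _, _, _, V, M₁, N₁, ξ₁, ρ₁, A₁, hI1, hV, hVr, hM1, hN1, hM1', hN1', hA1, hξ1', hρ1,
    nM, nN, nN'⟩ := h H M N ξ ρ A γ hγ.le (by linarith) hI p hpA hp hpp hne
  -- the compression
  have hVV : ∀ k, V.adjoint (V k) = k := by
    intro k
    have := (ContinuousLinearMap.norm_map_iff_adjoint_comp_self V).1 hV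
    exact congrArg (fun f => f k) this
  have hVVr : ∀ v, p v = v → ρ p v = v → V (V.adjoint v) = v := by
    intro v h1 h2
    obtain ⟨k, hk⟩ := (hVr v).1 ⟨h1, h2⟩
    rw [← hk, hVV]
  have hpV : ∀ k, p (V k) = V k := fun k => ((hVr (V k)).2 ⟨k, rfl⟩).1
  have hρV : ∀ k, ρ p (V k) = V k := fun k => ((hVr (V k)).2 ⟨k, rfl⟩).2
  have hVn : ‖V‖ ≤ 1 := V.opNorm_le_bound zero_le_one (fun k => by rw [hV, one_mul])
  have hVan : ‖V.adjoint‖ ≤ 1 := by
    rw [LinearIsometryEquiv.norm_map]; exact hVn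
  let c : (H →L[ℂ] H) → (K →L[ℂ] K) := fun T => V.adjoint ∘L T ∘L V
  have hc : ∀ T k, c T k = V.adjoint (T (V k)) := fun T k => rfl
  have hcn : ∀ T, ‖c T‖ ≤ ‖T‖ := by
    intro T
    calc ‖c T‖ ≤ ‖V.adjoint‖ * ‖T ∘L V‖ := ContinuousLinearMap.opNorm_comp_le _ _
      _ ≤ ‖V.adjoint‖ * (‖T‖ * ‖V‖) :=
        mul_le_mul_of_nonneg_left (ContinuousLinearMap.opNorm_comp_le _ _) (norm_nonneg _)
      _ ≤ 1 * (‖T‖ * 1) := by gcongr
      _ = ‖T‖ := by ring
  have hcadd : ∀ S T, c (S + T) = c S + c T := by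
    intro S T; ext k; simp [hc]
  have hcsub : ∀ S T, c (S - T) = c S - c T := by
    intro S T; ext k; simp [hc]
  have hcsmul : ∀ (z : ℂ) T, c (z • T) = z • c T := by
    intro z T; ext k; simp [hc]
  have hcstar : ∀ T, c (star T) = star (c T) := by
    intro T
    rw [ContinuousLinearMap.star_eq_adjoint, ContinuousLinearMap.star_eq_adjoint]
    change V.adjoint ∘L T.adjoint ∘L V = ContinuousLinearMap.adjoint (V.adjoint ∘L T ∘L V)
    rw [ContinuousLinearMap.adjoint_comp, ContinuousLinearMap.adjoint_comp,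
      ContinuousLinearMap.adjoint_adjoint]
    rfl
  have hc1 : c 1 = 1 := by
    ext k; rw [hc]; exact hVV k
  -- operators leaving the range invariant
  have hinv : ∀ T : H →L[ℂ] H, p * T = T * p → ρ p * T = T * ρ p → ∀ k, V (c T k) = T (V k) := by
    intro T h1 h2 k
    rw [hc]
    apply hVVr
    · have := congrArg (fun f => f (V k)) h1
      simp only [mul_apply_eq_comp, hpV] at this
      exact this
    · have := congrArg (fun f => f (V k)) h2
      simp only [mul_apply_eq_comp, hρV] at this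
      exact this
  have hcorp : ∀ x : H →L[ℂ] H, p * x * p = x → p * x = x ∧ x * p = x := by
    intro x hx
    constructor
    · rw [← hx]; rw [← mul_assoc, ← mul_assoc, hpp]
    · rw [← hx]; rw [mul_assoc, hpp]
  have hρcM : ∀ x ∈ M, ρ p * x = x * ρ p := fun x hx => hI.std.comm p hpM x hx
  have hρcN : ∀ x ∈ N, ρ p * x = x * ρ p := by
    intro x hx
    have := hI.AN' p hpA
    rw [VonNeumannAlgebra.mem_commutant_iff] at this
    exact (this x hx).symm
  have hVM : ∀ x ∈ M, p * x * p = x → ∀ k, V (c x k) = x (V k) := by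
    intro x hx hpx
    obtain ⟨h1, h2⟩ := hcorp x hpx
    exact hinv x (h1.trans h2.symm) (hρcM x hx)
  have hVN : ∀ x ∈ N, p * x * p = x → ∀ k, V (c x k) = x (V k) := by
    intro x hx hpx
    obtain ⟨h1, h2⟩ := hcorp x hpx
    exact hinv x (h1.trans h2.symm) (hρcN x hx)
  have hcM : ∀ x ∈ M, p * x * p = x → c x ∈ M₁ := fun x hx hpx =>
    (hM1 _).2 ⟨x, hx, hpx, hVM x hx hpx⟩
  have hcN : ∀ x ∈ N, p * x * p = x → c x ∈ N₁ := fun x hx hpx =>
    (hN1 _).2 ⟨x, hx, hpx, hVN x hx hpx⟩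
  have huq : ∀ (z : K →L[ℂ] K) (x : H →L[ℂ] H), (∀ k, V (z k) = x (V k)) → c x = z := by
    intro z x hz
    ext k
    rw [hc, ← hz, hVV]
  have hinjM : ∀ x ∈ M, p * x * p = x → c x = 0 → x = 0 := by
    intro x hx hpx h0
    have := nM x hx hpx _ (hVM x hx hpx)
    rw [h0, norm_zero] at this
    exact norm_eq_zero.1 this.symm
  have hinjN : ∀ x ∈ N, p * x * p = x → c x = 0 → x = 0 := by
    intro x hx hpx h0
    have := nN x hx hpx _ (hVN x hx hpx)
    rw [h0, norm_zero] at this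
    exact norm_eq_zero.1 this.symm
  have hcmul : ∀ S T : H →L[ℂ] H, (∀ k, V (c T k) = T (V k)) → c (S * T) = c S * c T := by
    intro S T hT
    ext k
    rw [hc, mul_apply_eq_comp, mul_apply_eq_comp, hc S, hT]
  -- the unit
  have hwp : p * (w : H →L[ℂ] H) = w * p := (hwA p hpA).symm
  have hwρp : ρ p * (w : H →L[ℂ] H) = w * ρ p := (hwρ p hpA).symm
  have hwip : p * ((w⁻¹ : (H →L[ℂ] H)ˣ) : H →L[ℂ] H) = (w⁻¹ : (H →L[ℂ] H)ˣ) * p := by
    have : Commute p (w : H →L[ℂ] H) := hwp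
    exact this.units_inv_right
  have hwiρp : ρ p * ((w⁻¹ : (H →L[ℂ] H)ˣ) : H →L[ℂ] H) = (w⁻¹ : (H →L[ℂ] H)ˣ) * ρ p := by
    have : Commute (ρ p) (w : H →L[ℂ] H) := hwρp
    exact this.units_inv_right
  have hVw := hinv _ hwp hwρp
  have hVwi := hinv _ hwip hwiρp
  let w₁ : (K →L[ℂ] K)ˣ :=
    ⟨c w, c (w⁻¹ : (H →L[ℂ] H)ˣ), by rw [← hcmul _ _ hVwi, Units.mul_inv, hc1],
      by rw [← hcmul _ _ hVw, Units.inv_mul, hc1]⟩
  have hw1c : (w₁ : K →L[ℂ] K) = c w := rfl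
  have hw1i : ((w₁⁻¹ : (K →L[ℂ] K)ˣ) : K →L[ℂ] K) = c (w⁻¹ : (H →L[ℂ] H)ˣ) := rfl
  have hw1n : ‖(w₁ : K →L[ℂ] K) - 1‖ ≤ ‖(w : H →L[ℂ] H) - 1‖ := by
    rw [hw1c, ← hc1, ← hcsub]
    exact hcn _
  -- commutation
  have hpρξ : ρ p ξ = p ξ := hI.std.vec p hpM
  have hn0 : ((‖p ξ‖ : ℝ) : ℂ) ≠ 0 := by
    exact_mod_cast (norm_ne_zero_iff.2 hne)
  have hVξ : V ξ₁ = ((‖p ξ‖ : ℝ) : ℂ)⁻¹ • p ξ := by
    have := congrArg (fun v => ((‖p ξ‖ : ℝ) : ℂ)⁻¹ • v) hξ1'
    simp only [smul_smul, inv_mul_cancel₀ hn0, one_smul] at this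
    exact this
  have hDl : Dl (M₁ : Set (K →L[ℂ] K)) (conj w₁ N₁.commutant) ξ₁ 0 := by
    intro z hz q₁ hq₁
    obtain ⟨x, hxM, hpx, hzx⟩ := (hM1 z).1 hz
    obtain ⟨r, hr, hρr, hqr⟩ := (hN1' _).1 hq₁
    set q : H →L[ℂ] H := (w⁻¹ : (H →L[ℂ] H)ˣ) * r * w with hq
    have hwqw : (w : H →L[ℂ] H) * q * ((w⁻¹ : (H →L[ℂ] H)ˣ) : H →L[ℂ] H) = r := by
      rw [hq]
      calc (w : H →L[ℂ] H) * ((w⁻¹ : (H →L[ℂ] H)ˣ) * r * w) * ((w⁻¹ : (H →L[ℂ] H)ˣ) : H →L[ℂ] H)
          = (w * ((w⁻¹ : (H →L[ℂ] H)ˣ) : H →L[ℂ] H)) * r *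
            (w * ((w⁻¹ : (H →L[ℂ] H)ˣ) : H →L[ℂ] H)) := by noncomm_ring
        _ = r := by rw [Units.mul_inv, one_mul, mul_one]
    have hqmem : q ∈ conj w N.commutant := by
      change (w : H →L[ℂ] H) * q * ((w⁻¹ : (H →L[ℂ] H)ˣ) : H →L[ℂ] H) ∈ N.commutant
      rw [hwqw]; exact hr
    have hρq : ρ p * q * ρ p = q := by
      rw [hq]
      calc ρ p * ((w⁻¹ : (H →L[ℂ] H)ˣ) * r * w) * ρ p
          = (ρ p * ((w⁻¹ : (H →L[ℂ] H)ˣ) : H →L[ℂ] H)) * r * (w * ρ p) := by noncomm_ring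
        _ = ((w⁻¹ : (H →L[ℂ] H)ˣ) * ρ p) * r * (ρ p * w) := by rw [hwiρp, hwρp]
        _ = (w⁻¹ : (H →L[ℂ] H)ˣ) * (ρ p * r * ρ p) * w := by noncomm_ring
        _ = _ := by rw [hρr]
    have hVq : ∀ k, V (q₁ k) = q (V k) := by
      intro k
      have e1 : q₁ k = ((w₁⁻¹ : (K →L[ℂ] K)ˣ) : K →L[ℂ] K)
          (((w₁ : K →L[ℂ] K) * q₁ * ((w₁⁻¹ : (K →L[ℂ] K)ˣ) : K →L[ℂ] K)) ((w₁ : K →L[ℂ] K) k)) := by
        have : q₁ = ((w₁⁻¹ : (K →L[ℂ] K)ˣ) : K →L[ℂ] K) *
          ((w₁ : K →L[ℂ] K) * q₁ * ((w₁⁻¹ : (K →L[ℂ] K)ˣ) : K →L[ℂ] K)) * w₁ := by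
          calc q₁ = 1 * q₁ * 1 := by rw [one_mul, mul_one]
            _ = ((w₁⁻¹ : (K →L[ℂ] K)ˣ) * (w₁ : K →L[ℂ] K)) * q₁ *
              ((w₁⁻¹ : (K →L[ℂ] K)ˣ) * (w₁ : K →L[ℂ] K)) := by rw [Units.inv_mul]
            _ = _ := by noncomm_ring
        conv_lhs => rw [this]
        rfl
      calc V (q₁ k) = V (c (w⁻¹ : (H →L[ℂ] H)ˣ)
            (((w₁ : K →L[ℂ] K) * q₁ * ((w₁⁻¹ : (K →L[ℂ] K)ˣ) : K →L[ℂ] K))
              ((w₁ : K →L[ℂ] K) k))) := congrArg V e1
        _ = ((w⁻¹ : (H →L[ℂ] H)ˣ) : H →L[ℂ] H)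
            (V (((w₁ : K →L[ℂ] K) * q₁ * ((w₁⁻¹ : (K →L[ℂ] K)ˣ) : K →L[ℂ] K))
              ((w₁ : K →L[ℂ] K) k))) := hVwi _
        _ = ((w⁻¹ : (H →L[ℂ] H)ˣ) : H →L[ℂ] H) (r (V ((w₁ : K →L[ℂ] K) k))) := by rw [hqr]
        _ = ((w⁻¹ : (H →L[ℂ] H)ˣ) : H →L[ℂ] H) (r ((w : H →L[ℂ] H) (V k))) := by
            rw [hw1c, hVw]
        _ = q (V k) := rfl
    have hx2 := hcorp x hpx
    have h0 := hRD x hxM q hqmem hpx hρq
    have h0' : (x * q - q * x) ξ = 0 := by
      rw [← norm_le_zero_iff]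
      simpa using h0
    have hqρ : q * ρ p = q := by
      have h1 : ρ p * ρ p = ρ p := by rw [← hI.std.mul p hpM p hpM, hpp]
      rw [← hρq, mul_assoc, h1]
    have e2 : (x * q - q * x) (p ξ) = (x * q - q * x) ξ := by
      change x (q (p ξ)) - q (x (p ξ)) = x (q ξ) - q (x ξ)
      have e3 : q (p ξ) = q ξ := by
        rw [← hpρξ]
        exact congrArg (fun f => f ξ) hqρ
      have e4 : x (p ξ) = x ξ := congrArg (fun f => f ξ) hx2.2
      rw [e3, e4]
    have e5 : V ((z * q₁ - q₁ * z) ξ₁) = 0 := by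
      change V (z (q₁ ξ₁) - q₁ (z ξ₁)) = 0
      rw [map_sub, hzx, hVq, hVq, hzx, hVξ]
      have : x (q (((‖p ξ‖ : ℝ) : ℂ)⁻¹ • p ξ)) - q (x (((‖p ξ‖ : ℝ) : ℂ)⁻¹ • p ξ)) =
          ((‖p ξ‖ : ℝ) : ℂ)⁻¹ • (x * q - q * x) (p ξ) := by
        simp [smul_sub]
      rw [this, e2, h0', smul_zero]
    have e6 : ‖(z * q₁ - q₁ * z) ξ₁‖ = 0 := by rw [← hV, e5, norm_zero]
    rw [e6]; simp
  -- the reduced algebra is a factor
  have hTrM := std_trace M ξ ρ hI.std
  have hFM : IsIIOneFactor M (fun x : Elt M => ⟪ξ, (x : H →L[ℂ] H) ξ⟫_ℂ) :=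
    ⟨hM.center, hM.infinite, hTrM, normal_vec M ξ⟩
  have hfM : ∀ x ∈ M, ⟪ξ, (star x * x) ξ⟫_ℂ = 0 → x = 0 := by
    intro x hx h0
    exact congrArg Subtype.val (hTrM.faithful ⟨x, hx⟩ h0)
  have hpin : ⟪ξ, p ξ⟫_ℂ = ((‖p ξ‖ ^ 2 : ℝ) : ℂ) := by
    have : ⟪ξ, p ξ⟫_ℂ = ⟪ξ, (star p * p) ξ⟫_ℂ := by rw [hp, hpp]
    rw [this, mul_apply_eq_comp, ContinuousLinearMap.star_eq_adjoint,
      ContinuousLinearMap.adjoint_inner_right, inner_self_eq_norm_sq_to_K]
    norm_cast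
  have hpin0 : ⟪ξ, p ξ⟫_ℂ ≠ 0 := by
    rw [hpin]
    exact_mod_cast (pow_ne_zero 2 (norm_ne_zero_iff.2 hne))
  have hcenter : HasTrivialCenter M₁ := by
    intro z hz hzc
    obtain ⟨x, hxM, hpx, hzx⟩ := (hM1 z).1 hz
    have hcx : c x = z := huq z x hzx
    obtain ⟨d, hd⟩ := corner_center M hM.center ξ hfM p x hpM hp hpp hpin0 hxM hpx (by
      intro y hy
      have hyM : p * y * p ∈ M := mul_mem (mul_mem hpM hy) hpM
      have hyc : p * (p * y * p) * p = p * y * p := by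
        calc p * (p * y * p) * p = (p * p) * y * (p * p) := by noncomm_ring
          _ = _ := by rw [hpp]
      have h1 := hzc _ (hcM _ hyM hyc)
      rw [← hcx, ← hcmul _ _ (hVM _ hyM hyc), ← hcmul _ _ (hVM _ hxM hpx)] at h1
      have h2 : c (x * (p * y * p) - p * y * p * x) = 0 := by rw [hcsub, h1, sub_self]
      have h3 := hinjM _ (sub_mem (mul_mem hxM hyM) (mul_mem hyM hxM)) (by
        have hx2 := hcorp x hpx
        rw [mul_sub, sub_mul]
        congr 1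
        · calc p * (x * (p * y * p)) * p = (p * x) * (p * y * (p * p)) := by noncomm_ring
            _ = _ := by rw [hx2.1, hpp]
        · calc p * (p * y * p * x) * p = (p * p) * y * p * (x * p) := by noncomm_ring
            _ = _ := by rw [hx2.2, hpp]) h2
      exact sub_eq_zero.1 h3)
    refine ⟨d, ?_⟩
    rw [← hcx, hd, hcsmul]
    congr 1
    ext k
    rw [hc, hpV, hVV]
    rfl
  have hinfin : ¬ FiniteDimensional ℂ (Elt M₁) := by
    intro hfin
    apply hM.infinite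
    obtain ⟨v, hvM, hv1, hv2⟩ := W475.KKS.cmp H M ξ hFM p hpM hp hpp (by
      have h3 : (1 - p) ξ = ξ - p ξ := rfl
      have h4 : ⟪ξ, (1 - p) ξ⟫_ℂ = ((‖(1 - p) ξ‖ ^ 2 : ℝ) : ℂ) := by
        have h5 : star (1 - p) * (1 - p) = 1 - p := by
          rw [star_sub, star_one, hp]
          have : (1 - p) * (1 - p) = 1 - p - p + p * p := by noncomm_ring
          rw [this, hpp]; abel
        have : ⟪ξ, (1 - p) ξ⟫_ℂ = ⟪ξ, (star (1 - p) * (1 - p)) ξ⟫_ℂ := by rw [h5]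
        rw [this, mul_apply_eq_comp, ContinuousLinearMap.star_eq_adjoint,
          ContinuousLinearMap.adjoint_inner_right, inner_self_eq_norm_sq_to_K]
        norm_cast
      have h6 : ⟪ξ, ξ⟫_ℂ = 1 := by
        rw [inner_self_eq_norm_sq_to_K, hξ1]; norm_num
      have h7 : ⟪ξ, p ξ⟫_ℂ = 1 - ((‖(1 - p) ξ‖ ^ 2 : ℝ) : ℂ) := by
        rw [← h4, h3, inner_sub_right, h6]; ring
      rw [h7, Complex.sub_re, Complex.one_re, Complex.ofReal_re]
      linarith)
    have hvp : v * p = 0 := by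
      have h3 : star (v * p) * (v * p) = 0 := by
        rw [star_mul, hp]
        calc p * star v * (v * p) = p * (star v * v) * p := by noncomm_ring
          _ = p * p - p * p * p := by rw [hv1]; noncomm_ring
          _ = 0 := by rw [hpp, hpp, sub_self]
      exact (CStarRing.star_mul_self_eq_zero_iff _).1 h3
    have hsvp : star v * p = star v := by
      have := congrArg star hv2
      rwa [star_mul, hp] at this
    have hcor : ∀ a b : H →L[ℂ] H, a ∈ M → b ∈ M → p * a = a → b * p = b → ∀ x ∈ M,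
        a * x * b ∈ M ∧ p * (a * x * b) * p = a * x * b := by
      intro a b ha hb h3 h4 x hx
      refine ⟨mul_mem (mul_mem ha hx) hb, ?_⟩
      calc p * (a * x * b) * p = (p * a) * x * (b * p) := by noncomm_ring
        _ = _ := by rw [h3, h4]
    let L : ∀ a b : H →L[ℂ] H, a ∈ M → b ∈ M → p * a = a → b * p = b → (Elt M →ₗ[ℂ] Elt M₁) :=
      fun a b ha hb h3 h4 =>
      { toFun := fun x => ⟨c (a * x * b), hcM _ (hcor a b ha hb h3 h4 x x.2).1
          (hcor a b ha hb h3 h4 x x.2).2⟩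
        map_add' := fun x y => Subtype.ext (by
          change c (a * (x + y : H →L[ℂ] H) * b) = c (a * x * b) + c (a * y * b)
          rw [mul_add, add_mul, hcadd])
        map_smul' := fun d x => Subtype.ext (by
          change c (a * (d • (x : H →L[ℂ] H)) * b) = d • c (a * x * b)
          rw [mul_smul_comm, smul_mul_assoc, hcsmul]) }
    have hL0 : ∀ a b ha hb h3 h4 (x : Elt M), L a b ha hb h3 h4 x = 0 →
        a * (x : H →L[ℂ] H) * b = 0 := by
      intro a b ha hb h3 h4 x h0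
      exact hinjM _ (hcor a b ha hb h3 h4 x x.2).1 (hcor a b ha hb h3 h4 x x.2).2
        (congrArg Subtype.val h0)
    have hsvM : star v ∈ M := star_mem hvM
    let Φ : Elt M →ₗ[ℂ] (Elt M₁ × Elt M₁) × (Elt M₁ × Elt M₁) :=
      ((L p p hpM hpM hpp hpp).prod (L p (star v) hpM hsvM hpp hsvp)).prod
        ((L v p hvM hpM hv2 hpp).prod (L v (star v) hvM hsvM hv2 hsvp))
    have hΦ : Function.Injective Φ := by
      rw [← LinearMap.ker_eq_bot, LinearMap.ker_eq_bot']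
      intro x hx
      have a1 : L p p hpM hpM hpp hpp x = 0 := congrArg (fun t => t.1.1) hx
      have a2 : L p (star v) hpM hsvM hpp hsvp x = 0 := congrArg (fun t => t.1.2) hx
      have a3 : L v p hvM hpM hv2 hpp x = 0 := congrArg (fun t => t.2.1) hx
      have a4 : L v (star v) hvM hsvM hv2 hsvp x = 0 := congrArg (fun t => t.2.2) hx
      have b1 := hL0 p p hpM hpM hpp hpp x a1
      have b2 := hL0 p (star v) hpM hsvM hpp hsvp x a2
      have b3 := hL0 v p hvM hpM hv2 hpp x a3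
      have b4 := hL0 v (star v) hvM hsvM hv2 hsvp x a4
      apply Subtype.ext
      change (x : H →L[ℂ] H) = 0
      calc (x : H →L[ℂ] H) = (p + (1 - p)) * x * (p + (1 - p)) := by
            rw [add_sub_cancel, one_mul, mul_one]
        _ = (p + star v * v) * x * (p + star v * v) := by rw [hv1]
        _ = p * x * p + (p * x * star v) * v + star v * (v * x * p) +
            star v * (v * x * star v) * v := by noncomm_ring
        _ = 0 := by rw [b1, b2, b3, b4]; simp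
    exact FiniteDimensional.of_injective Φ hΦ
  have hfac : IsIIOneFactor M₁ (fun z : Elt M₁ => ⟪ξ₁, (z : K →L[ℂ] K) ξ₁⟫_ℂ) :=
    ⟨hcenter, hinfin, std_trace M₁ ξ₁ ρ₁ hI1.std, normal_vec M₁ ξ₁⟩
  have hnear : ∀ {B C : Set (K →L[ℂ] K)}, Near B C γ → Near B C (1 / K1) := by
    intro B C hBC x hx
    obtain ⟨y, hy, hxy⟩ := hBC x hx
    exact ⟨y, hy, hxy.trans (mul_le_mul_of_nonneg_right (hγK.trans hKK) (norm_nonneg _))⟩
  have hMN := hHH K M₁ N₁ _ ξ₁ ρ₁ w₁ (1 / K1) hI1.std hfac (by positivity) le_rfl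
    (hw1n.trans (hw.trans hKK)) (hnear hI1.n1) (hnear hI1.n2) hDl
  obtain ⟨u, hu, huM⟩ := W345.KKS.pol K M₁ N₁ w₁ (hw1n.trans (hw.trans hK100)) hMN
  have huu : star u * u = 1 := Unitary.star_mul_self_of_mem hu
  have huu' : u * star u = 1 := Unitary.mul_star_self_of_mem hu
  -- existence
  have exN : ∀ x ∈ M, p * x * p = x → ∃ y ∈ N, p * y * p = y ∧ c y = u * c x * star u := by
    intro x hx hpx
    obtain ⟨y, hy, hpy, hyz⟩ := (hN1 _).1 ((huM _).1 (hcM x hx hpx))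
    exact ⟨y, hy, hpy, huq _ _ hyz⟩
  have exM : ∀ y ∈ N, p * y * p = y → ∃ x ∈ M, p * x * p = x ∧ c x = star u * c y * u := by
    intro y hy hpy
    have h1 : star u * c y * u ∈ M₁ := by
      rw [huM]
      have : u * (star u * c y * u) * star u = c y := by
        calc u * (star u * c y * u) * star u = (u * star u) * c y * (u * star u) := by
              noncomm_ring
          _ = _ := by rw [huu', one_mul, mul_one]
      rw [this]
      exact hcN y hy hpy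
    obtain ⟨x, hx, hpx, hxz⟩ := (hM1 _).1 h1
    exact ⟨x, hx, hpx, huq _ _ hxz⟩
  have eqM : ∀ x ∈ M, ∀ y ∈ M, p * x * p = x → p * y * p = y → c x = c y → x = y := by
    intro x hx y hy h1 h2 h3
    have := hinjM (x - y) (sub_mem hx hy) (by rw [mul_sub, sub_mul, h1, h2])
      (by rw [hcsub, h3, sub_self])
    exact sub_eq_zero.1 this
  have eqN : ∀ x ∈ N, ∀ y ∈ N, p * x * p = x → p * y * p = y → c x = c y → x = y := by
    intro x hx y hy h1 h2 h3
    have := hinjN (x - y) (sub_mem hx hy) (by rw [mul_sub, sub_mul, h1, h2])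
      (by rw [hcsub, h3, sub_self])
    exact sub_eq_zero.1 this
  choose! θ hθ1 hθ2 hθ3 using exN
  choose! θ' hθ'1 hθ'2 hθ'3 using exM
  have cadd : ∀ x y : H →L[ℂ] H, p * x * p = x → p * y * p = y → p * (x + y) * p = x + y := by
    intro x y h1 h2
    rw [mul_add, add_mul, h1, h2]
  have cmul : ∀ x y : H →L[ℂ] H, p * x * p = x → p * y * p = y → p * (x * y) * p = x * y := by
    intro x y h1 h2
    calc p * (x * y) * p = (p * x) * (y * p) := by noncomm_ring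
      _ = _ := by rw [(hcorp x h1).1, (hcorp y h2).2]
  have csmul : ∀ (d : ℂ) (x : H →L[ℂ] H), p * x * p = x → p * (d • x) * p = d • x := by
    intro d x h1
    rw [mul_smul_comm, smul_mul_assoc, h1]
  have cstar : ∀ x : H →L[ℂ] H, p * x * p = x → p * star x * p = star x := by
    intro x h1
    have := congrArg star h1
    rw [star_mul, star_mul, hp, ← mul_assoc] at this
    exact this
  refine ⟨θ, θ', ?_, ?_, ?_, ?_, ?_, ?_, ?_, ?_⟩
  · intro x hx hpx
    exact ⟨hθ1 x hx hpx, hθ2 x hx hpx⟩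
  · intro y hy hpy
    exact ⟨hθ'1 y hy hpy, hθ'2 y hy hpy⟩
  · intro x hx hpx
    have a1 := hθ1 x hx hpx
    have a2 := hθ2 x hx hpx
    apply eqM _ (hθ'1 _ a1 a2) _ hx (hθ'2 _ a1 a2) hpx
    rw [hθ'3 _ a1 a2, hθ3 x hx hpx]
    calc star u * (u * c x * star u) * u = (star u * u) * c x * (star u * u) := by noncomm_ring
      _ = _ := by rw [huu, one_mul, mul_one]
  · intro y hy hpy
    have a1 := hθ'1 y hy hpy
    have a2 := hθ'2 y hy hpy
    apply eqN _ (hθ1 _ a1 a2) _ hy (hθ2 _ a1 a2) hpy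
    rw [hθ3 _ a1 a2, hθ'3 y hy hpy]
    calc u * (star u * c y * u) * star u = (u * star u) * c y * (u * star u) := by noncomm_ring
      _ = _ := by rw [huu', one_mul, mul_one]
  · intro x hx y hy hpx hpy
    have a1 := add_mem hx hy
    have a2 := cadd x y hpx hpy
    apply eqN _ (hθ1 _ a1 a2) _ (add_mem (hθ1 x hx hpx) (hθ1 y hy hpy)) (hθ2 _ a1 a2)
      (cadd _ _ (hθ2 x hx hpx) (hθ2 y hy hpy))
    rw [hcadd, hθ3 _ a1 a2, hθ3 x hx hpx, hθ3 y hy hpy, hcadd]
    noncomm_ring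
  · intro x hx y hy hpx hpy
    have a1 := mul_mem hx hy
    have a2 := cmul x y hpx hpy
    apply eqN _ (hθ1 _ a1 a2) _ (mul_mem (hθ1 x hx hpx) (hθ1 y hy hpy)) (hθ2 _ a1 a2)
      (cmul _ _ (hθ2 x hx hpx) (hθ2 y hy hpy))
    rw [hcmul _ _ (hVN _ (hθ1 y hy hpy) (hθ2 y hy hpy)), hθ3 _ a1 a2, hθ3 x hx hpx,
      hθ3 y hy hpy, hcmul _ _ (hVM y hy hpy)]
    calc u * (c x * c y) * star u = u * c x * 1 * c y * star u := by noncomm_ring
      _ = u * c x * (star u * u) * c y * star u := by rw [huu]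
      _ = _ := by noncomm_ring
  · intro d x hx hpx
    have a1 : d • x ∈ M := M.toStarSubalgebra.smul_mem hx _
    have a2 := csmul d x hpx
    have b1 : d • θ x ∈ N := N.toStarSubalgebra.smul_mem (hθ1 x hx hpx) _
    apply eqN _ (hθ1 _ a1 a2) _ b1 (hθ2 _ a1 a2) (csmul _ _ (hθ2 x hx hpx))
    rw [hcsmul, hθ3 _ a1 a2, hθ3 x hx hpx, hcsmul, mul_smul_comm, smul_mul_assoc]
  · intro x hx hpx
    have a1 := star_mem hx
    have a2 := cstar x hpx
    apply eqN _ (hθ1 _ a1 a2) _ (star_mem (hθ1 x hx hpx)) (hθ2 _ a1 a2)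
      (cstar _ (hθ2 x hx hpx))
    rw [hcstar, hθ3 _ a1 a2, hθ3 x hx hpx, hcstar, star_mul, star_mul, star_star, mul_assoc]

end Pool.Agent.W991.KKS
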